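import Pool.Agent.Helper84.FP.Goals

/-!
MP_43a2f8_nt, packet FQ-MIN: the least prime factor of a fixed point.
-/

set_option autoImplicit false

namespace Pool.Agent.Helper60.FQ.MIN

open Finset Pool.Agent.Helper91.FP Pool.Agent.Helper84.FP

theorem G_upper (p : ℕ) (hp : 1 ≤ p) (k : ℕ) :
    ((p : ℚ) - 1) * (G p k : ℚ) ≤ ((k : ℚ) + 1) * (p : ℚ) ^ (k + 1) := by
  have hp' : (1 : ℚ) ≤ p := by exact_mod_cast hp
  induction k with
  | zero =>
    rw [G_zero]
    push_cast
    linarith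
  | succ k ih =>
    rw [G_succ]
    push_cast
    have h1 : (0 : ℚ) ≤ (p : ℚ) ^ (k + 1) := by positivity
    have h2 : (p : ℚ) ^ (k + 1 + 1) = p * (p : ℚ) ^ (k + 1) := by ring
    nlinarith [ih, h1, h2]

theorem prod_ge (s : Finset ℕ) (x : ℕ → ℚ) (h0 : ∀ p ∈ s, 0 ≤ x p) (h1 : ∀ p ∈ s, x p ≤ 1) :
    1 - ∑ p ∈ s, x p ≤ ∏ p ∈ s, (1 - x p) := by
  classical
  induction s using Finset.induction_on with
  | empty => simp
  | insert b s hb ih =>
    rw [Finset.sum_insert hb, Finset.prod_insert hb]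
    have ih' := ih (fun p hp => h0 p (Finset.mem_insert_of_mem hp))
      (fun p hp => h1 p (Finset.mem_insert_of_mem hp))
    have hb0 := h0 b (Finset.mem_insert_self b s)
    have hb1 := h1 b (Finset.mem_insert_self b s)
    have hs0 : 0 ≤ ∑ p ∈ s, x p :=
      Finset.sum_nonneg fun p hp => h0 p (Finset.mem_insert_of_mem hp)
    have h3 : (1 - x b) * (1 - ∑ p ∈ s, x p) ≤ (1 - x b) * ∏ p ∈ s, (1 - x p) :=
      mul_le_mul_of_nonneg_left ih' (by linarith)
    nlinarith [mul_nonneg hb0 hs0]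

theorem t : S_MIN := by
  classical
  intro n hn h
  by_contra hlt
  push Not at hlt
  set S := n.primeFactors with hS
  set T := n.divisors.card with hT
  -- `S` is nonempty
  have hn1 : n ≠ 1 := by
    rintro rfl
    have : a 1 = 0 := by decide
    omega
  have hSne : S.Nonempty := Nat.nonempty_primeFactors.2 (by omega)
  have hR : 0 < S.card := Finset.card_pos.2 hSne
  have hbig : ∀ p ∈ S, (T + 1) * S.card < p := fun p hp =>
    lt_of_lt_of_le hlt (Nat.minFac_le_of_dvd (Nat.prime_of_mem_primeFactors hp).two_le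
      (Nat.dvd_of_mem_primeFactors hp))
  have hpp : ∀ p ∈ S, 2 ≤ p := fun p hp => (Nat.prime_of_mem_primeFactors hp).two_le
  -- the product of the upper bounds
  have h1 : ∏ p ∈ S, ((1 - 1 / (p : ℚ)) * (G p (n.factorization p) : ℚ)) ≤
      ∏ p ∈ S, (((n.factorization p : ℚ) + 1) * (p : ℚ) ^ n.factorization p) := by
    refine Finset.prod_le_prod (fun p hp => ?_) (fun p hp => ?_)
    · have h2 : (1 : ℚ) ≤ p := by exact_mod_cast (by have := hpp p hp; omega : 1 ≤ p)
      have h3 : 1 / (p : ℚ) ≤ 1 := by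
        rw [div_le_one (by linarith)]
        exact h2
      exact mul_nonneg (by linarith) (by positivity)
    · have h2 : (1 : ℚ) ≤ p := by exact_mod_cast (by have := hpp p hp; omega : 1 ≤ p)
      have h3 := G_upper p (by have := hpp p hp; omega) (n.factorization p)
      have h4 : (0 : ℚ) < p := by linarith
      have h5 : (1 - 1 / (p : ℚ)) * (G p (n.factorization p) : ℚ) =
          (((p : ℚ) - 1) * (G p (n.factorization p) : ℚ)) / p := by
        field_simp
      rw [h5, div_le_iff₀ h4]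
      refine h3.trans (le_of_eq ?_)
      ring
  rw [Finset.prod_mul_distrib, Finset.prod_mul_distrib] at h1
  have h2 : (∏ p ∈ S, (G p (n.factorization p) : ℚ)) = (n : ℚ) * (1 + T) := by
    have := prod_eq hn h
    exact_mod_cast this
  have h3 : (∏ p ∈ S, ((n.factorization p : ℚ) + 1)) = (T : ℚ) := by
    have := card_prod hn.ne'
    exact_mod_cast this.symm
  have h4 : (∏ p ∈ S, (p : ℚ) ^ n.factorization p) = (n : ℚ) := by
    have := Nat.prod_factorization_pow_eq_self hn.ne'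
    rw [Finsupp.prod, Nat.support_factorization] at this
    exact_mod_cast this
  rw [h2, h3, h4] at h1
  have hn0 : (0 : ℚ) < n := by exact_mod_cast hn
  have hT0 : (0 : ℚ) ≤ T := Nat.cast_nonneg _
  have h5 : (∏ p ∈ S, (1 - 1 / (p : ℚ))) * (1 + T) ≤ T := by
    have h6 : ((∏ p ∈ S, (1 - 1 / (p : ℚ))) * (1 + T)) * n ≤ T * n := by
      calc ((∏ p ∈ S, (1 - 1 / (p : ℚ))) * (1 + T)) * n
          = (∏ p ∈ S, (1 - 1 / (p : ℚ))) * (n * (1 + T)) := by ring
        _ ≤ _ := h1
    exact le_of_mul_le_mul_right h6 hn0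
  -- the lower bound
  have h6 : 1 - ∑ p ∈ S, 1 / (p : ℚ) ≤ ∏ p ∈ S, (1 - 1 / (p : ℚ)) := by
    refine prod_ge S _ (fun p hp => by positivity) (fun p hp => ?_)
    have h7 : (1 : ℚ) ≤ p := by exact_mod_cast (by have := hpp p hp; omega : 1 ≤ p)
    rw [div_le_one (by linarith)]
    exact h7
  have hB : (0 : ℚ) < ((T : ℚ) + 1) * S.card := by
    have : (0 : ℚ) < S.card := by exact_mod_cast hR
    positivity
  have h7 : ∑ p ∈ S, 1 / (p : ℚ) < ∑ _p ∈ S, 1 / (((T : ℚ) + 1) * S.card) := by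
    refine Finset.sum_lt_sum_of_nonempty hSne fun p hp => ?_
    refine one_div_lt_one_div_of_lt hB ?_
    exact_mod_cast hbig p hp
  rw [Finset.sum_const, nsmul_eq_mul] at h7
  have h8 : (S.card : ℚ) * (1 / (((T : ℚ) + 1) * S.card)) = 1 / ((T : ℚ) + 1) := by
    have : (0 : ℚ) < S.card := by exact_mod_cast hR
    field_simp
  rw [h8] at h7
  have h9 : 1 / ((T : ℚ) + 1) * (1 + T) = 1 := by
    field_simp
    ring
  nlinarith

end Pool.Agent.Helper60.FQ.MIN
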